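import Pool.Agent.H11.TH.FinC

/-!
# Remond's conjecture in Bogomolov form for all subvarieties of tori

`G = 𝔾_m^n`. Let `Λ ⊂ K̄*` be finitely generated and `S` a finite set of primes. An `S`-radical of `Λ` is an `x` with
`x^M t ∈ Λ` for a root of unity `t` and an integer `M ≥ 1` all of whose prime factors lie in `S`.
* For all `N`, `d` there is `c > 0`, independent of `n`, with `D μ_ess(V) ≥ c` for all `Γ ≥ Λ^n` and all
  `Γ`-transverse subvarieties `V` of `𝔾_m^n` on which some nonzero sum of `N` terms `g_j x^(m_j)` vanishes, `m_j ≤ D`,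
  `g_j` of degree at most `d` over the field generated by the `S`-radicals of `Λ`.
* For all `n`, `ω₀` there is `c > 0` with `μ_ess(V) ≥ c` for all groups `Λ^n ≤ Γ ≤ {S-radicals of Λ}^n` and all
  `Γ`-transverse subvarieties `V` of `𝔾_m^n` with `ω_{K(Γ)}(V) ≤ ω₀`.
-/

set_option autoImplicit false
set_option linter.unusedSectionVars false

open MvPolynomial Filter Topology

namespace Pool.Agent.Results.MP_187c26_nt.BogomolovForm

/-- The group of points over the algebraic closure of `K` of the torus `𝔾_m^n`. -/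
abbrev Torus (K : Type) [Field K] (n : ℕ) : Type := Fin n → (AlgebraicClosure K)ˣ

section Definitions

variable {K : Type} [Field K] [NumberField K] {n : ℕ}

/-- The coordinate vector of a point of `𝔾_m^n`. -/
def coords (x : Torus K n) : Fin n → AlgebraicClosure K := fun i => (x i : AlgebraicClosure K)

/-- The canonical height `h_G(x) = ∑ h(x_i)`, with `h` the absolute logarithmic Weil height. -/
noncomputable def height (x : Torus K n) : ℝ := ∑ i, NumberField.absLogHeight₁ (coords x i)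

/-- The ideal of all polynomials over the algebraic closure vanishing on `V`. -/
noncomputable def idealOf (V : Set (Torus K n)) :
    Ideal (MvPolynomial (Fin n) (AlgebraicClosure K)) :=
  vanishingIdeal (AlgebraicClosure K) (coords '' V)

/-- `Z` is a Zariski closed subset of `𝔾_m^n` defined over `L`. -/
def IsClosedOver (L : IntermediateField K (AlgebraicClosure K)) (Z : Set (Torus K n)) : Prop :=
  ∃ J : Ideal (MvPolynomial (Fin n) L), Z = {x | coords x ∈ zeroLocus (AlgebraicClosure K) J}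

/-- Subvarieties: irreducible closed subsets (over the algebraic closure). -/
def IsSubvariety (V : Set (Torus K n)) : Prop := IsClosedOver ⊤ V ∧ (idealOf V).IsPrime

/-- All irreducible components of `Z` have dimension `d`. -/
def IsEquidimensional (Z : Set (Torus K n)) (d : ℕ) : Prop :=
  Z.Nonempty ∧ ∀ P ∈ (idealOf Z).minimalPrimes,
    ringKrullDim (MvPolynomial (Fin n) (AlgebraicClosure K) ⧸ P) = d

/-- The space of functions on `Z` that are restrictions of polynomials of degree at most `m`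
in each variable, that is, of global sections of `O(m,...,m)` on `(ℙ^1)^n`. -/
noncomputable def sections (Z : Set (Torus K n)) (m : ℕ) :
    Submodule (AlgebraicClosure K) (Z → AlgebraicClosure K) :=
  (restrictDegree (Fin n) (AlgebraicClosure K) m).map
    (LinearMap.pi fun z : Z => (aeval (coords (z : Torus K n))).toLinearMap)

/-- `Z`, of pure dimension `d`, has degree `δ` with respect to `O(1,...,1)` on `(ℙ^1)^n`:
its Hilbert function is asymptotic to `δ m^d / d!`. -/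
def HasDegree (Z : Set (Torus K n)) (d : ℕ) (δ : ℝ) : Prop :=
  Tendsto (fun m : ℕ => (d.factorial : ℝ) *
    (Module.finrank (AlgebraicClosure K) (sections Z m) : ℝ) / (m : ℝ) ^ d) atTop (𝓝 δ)

/-- `ω = deg(Z)^(1/(n - dim Z))` for some equidimensional Zariski closed `Z ⊊ 𝔾_m^n` defined over `L` and
containing `V`. The obstruction index `ω_L(V)` is the minimum of these `ω`. -/
def ObstructionValue (L : IntermediateField K (AlgebraicClosure K)) (V : Set (Torus K n))
    (ω : ℝ) : Prop :=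
  ∃ (Z : Set (Torus K n)) (d : ℕ) (δ : ℝ), IsClosedOver L Z ∧ Z ≠ Set.univ ∧
    IsEquidimensional Z d ∧ V ⊆ Z ∧ HasDegree Z d δ ∧ ω = δ ^ (1 / ((n : ℝ) - d))

/-- The points of height at most `θ` are Zariski dense in `V`. The essential minimum `μ_ess(V)` is the
infimum of these `θ`. -/
def EssentialBound (V : Set (Torus K n)) (θ : ℝ) : Prop :=
  idealOf {x | x ∈ V ∧ height x ≤ θ} ≤ idealOf V

/-- The field generated over `K` by the coordinates of the points of `Γ`. -/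
noncomputable def fieldOf (Γ : Subgroup (Torus K n)) : IntermediateField K (AlgebraicClosure K) :=
  IntermediateField.adjoin K {y | ∃ γ ∈ Γ, ∃ i, y = coords γ i}

/-- The saturation of `Γ`. -/
def sat (Γ : Subgroup (Torus K n)) : Set (Torus K n) := {x | ∃ m : ℕ, 1 ≤ m ∧ x ^ m ∈ Γ}

/-- `V` is `Γ`-transverse: no proper `Γ`-torsion subvariety `B γ`, with `B` a connected algebraic
subgroup and `γ` in the saturation of `Γ`, contains `V`. -/
def IsTransverse (Γ : Subgroup (Torus K n)) (V : Set (Torus K n)) : Prop :=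
  ∀ (B : Subgroup (Torus K n)) (γ : Torus K n), IsSubvariety (B : Set (Torus K n)) → γ ∈ sat Γ →
    (fun b => b * γ) '' (B : Set (Torus K n)) ≠ Set.univ →
    ¬ V ⊆ (fun b => b * γ) '' (B : Set (Torus K n))

/-- `Λ^n ≤ Γ`, and every coordinate `y` of every element of `Γ` is an `S`-radical of an element of `Λ`, up to a
root of unity: `y^M t ∈ Λ` for a root of unity `t` and an integer `M ≥ 1` all of whose prime factors lie in
`S`. -/
def RadicalGroup (Λ : Subgroup (AlgebraicClosure K)ˣ) (S : Finset ℕ) (Γ : Subgroup (Torus K n)) :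
    Prop :=
  (∀ x : Torus K n, (∀ i, x i ∈ Λ) → x ∈ Γ) ∧ ∀ x ∈ Γ, ∀ i, ∃ M : ℕ, 1 ≤ M ∧
    (∀ q : ℕ, q.Prime → q ∣ M → q ∈ S) ∧
    ∃ t : (AlgebraicClosure K)ˣ, (∃ k : ℕ, 1 ≤ k ∧ t ^ k = 1) ∧ x i ^ M * t ∈ Λ

/-- The field generated over `K` by the roots of unity and by all `S`-radicals of `Λ`. -/
noncomputable def radicalField (Λ : Subgroup (AlgebraicClosure K)ˣ) (S : Finset ℕ) :
    IntermediateField K (AlgebraicClosure K) :=
  IntermediateField.adjoin K {y | ∃ x : (AlgebraicClosure K)ˣ,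
    (∃ M : ℕ, 1 ≤ M ∧ (∀ q : ℕ, q.Prime → q ∣ M → q ∈ S) ∧
      ∃ t : (AlgebraicClosure K)ˣ, (∃ k : ℕ, 1 ≤ k ∧ t ^ k = 1) ∧ x ^ M * t ∈ Λ) ∧
    y = (x : AlgebraicClosure K)}

/-- `y` has degree at most `d` over `L`. -/
def DegreeLE (L : IntermediateField K (AlgebraicClosure K)) (d : ℕ)
    (y : AlgebraicClosure K) : Prop :=
  ∃ P : Polynomial L, P ≠ 0 ∧ P.natDegree ≤ d ∧ Polynomial.aeval y P = 0

end Definitions

open Pool.Agent.H11.TH in
private theorem sparse (K : Type) [Field K] [NumberField K]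
    (Λ : Subgroup (AlgebraicClosure K)ˣ) (hΛ : Λ.FG) (S : Finset ℕ) (N d : ℕ) :
    ∃ c : ℝ, 0 < c ∧ ∀ (n : ℕ) (Γ : Subgroup (Torus K n)),
      (∀ x : Torus K n, (∀ i, x i ∈ Λ) → x ∈ Γ) →
      ∀ V : Set (Torus K n), IsSubvariety V → IsTransverse Γ V →
      ∀ (D : ℕ) (m : Fin N → Fin n → ℕ) (g : Fin N → AlgebraicClosure K),
      (∀ j i, m j i ≤ D) → (∀ j, DegreeLE (radicalField Λ S) d (g j)) →
      (∑ j, C (g j) * ∏ i, X i ^ m j i) ≠ 0 →
      (∑ j, C (g j) * ∏ i, X i ^ m j i) ∈ idealOf V →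
      ∀ θ : ℝ, EssentialBound V θ → c ≤ D * θ := by
  classical
  obtain ⟨c, hc, h⟩ := thm_sparse K Λ hΛ (S.filter Nat.Prime)
    (fun p hp => (Finset.mem_filter.1 hp).2) N d
  refine ⟨c, hc, ?_⟩
  intro n Γ hΓ V hV htr D m g hm hg hne hmem θ hθ
  have hN : (radicalField Λ S : IntermediateField K (AlgebraicClosure K)) =
      N₀ K Λ (S.filter Nat.Prime) := by
    unfold radicalField N₀ fld SRad
    congr 1
    ext y
    constructor
    · rintro ⟨x, ⟨M, hM, hMS, ht⟩, rfl⟩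
      exact ⟨x, ⟨M, hM, fun q hq hqM => Finset.mem_filter.2 ⟨hMS q hq hqM, hq⟩, ht⟩, rfl⟩
    · rintro ⟨x, ⟨M, hM, hMS, ht⟩, rfl⟩
      exact ⟨x, ⟨M, hM, fun q hq hqM => (Finset.mem_filter.1 (hMS q hq hqM)).1, ht⟩, rfl⟩
  have hterm : ∀ j, term (m j) (g j) = C (g j) * ∏ i, X i ^ m j i := by
    intro j
    unfold term
    rw [monomial_eq]
    congr 1
    rw [Finsupp.prod_fintype _ _ (fun i => pow_zero _)]
    rfl
  have h1 : (∑ j, term (m j) (g j)) = ∑ j, C (g j) * ∏ i, X i ^ m j i :=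
    Finset.sum_congr rfl fun j _ => hterm j
  refine h n Γ hΓ V hV.2 ?_ D m g hm ?_ (by rw [h1]; exact hne) (by rw [h1]; exact hmem) θ hθ
  · intro B γ hB1 hB2 hγ hne' hsub
    exact htr B γ ⟨hB1, hB2⟩ hγ hne' hsub
  · intro j
    obtain ⟨P, hP0, hPd, hP⟩ := hg j
    rw [← hN]
    refine (Pool.Agent.H72.PB.dg_le_of_poly (P.map (algebraMap _ (AlgebraicClosure K)))
      ?_ ?_ ?_).trans ?_
    · rw [Ne, Polynomial.map_eq_zero]
      exact hP0
    · intro i
      rw [Polynomial.coeff_map]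
      exact (P.coeff i).2
    · rw [Polynomial.eval_map_algebraMap]
      exact hP
    · rw [Polynomial.natDegree_map]
      exact hPd

open Pool.Agent.H11.TH in
private theorem bogomolov (K : Type) [Field K] [NumberField K]
    (Λ : Subgroup (AlgebraicClosure K)ˣ) (hΛ : Λ.FG) (S : Finset ℕ) (n : ℕ) (ω₀ : ℝ) :
    ∃ c : ℝ, 0 < c ∧ ∀ Γ : Subgroup (Torus K n), RadicalGroup Λ S Γ →
      ∀ V : Set (Torus K n), IsSubvariety V → V ≠ Set.univ → IsTransverse Γ V →
      (∃ ω : ℝ, ObstructionValue (fieldOf Γ) V ω ∧ ω ≤ ω₀) →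
      ∀ θ : ℝ, EssentialBound V θ → c ≤ θ := by
  classical
  obtain ⟨c, hc, h⟩ := thm_B K Λ hΛ (S.filter Nat.Prime)
    (fun p hp => (Finset.mem_filter.1 hp).2) n ω₀
  refine ⟨c, hc, ?_⟩
  intro Γ hΓ V hV _ htr hω θ hθ
  obtain ⟨_, ⟨Z, d', δ, hZ, hZne, hZd, hVZ, hZδ, rfl⟩, hω₀⟩ := hω
  refine h Γ hΓ.1 ?_ V hV.2 ?_ ⟨Z, d', δ, hZ, hZne, hZd, hZδ, hVZ, hω₀⟩ θ hθ
  · intro x hx i
    obtain ⟨M, hM, hMS, ht⟩ := hΓ.2 x hx i
    exact ⟨M, hM, fun q hq hqM => Finset.mem_filter.2 ⟨hMS q hq hqM, hq⟩, ht⟩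
  · intro B γ hB1 hB2 hγ hne hsub
    exact htr B γ ⟨hB1, hB2⟩ hγ hne hsub

/-- **Remond's conjecture in Bogomolov form for all subvarieties of tori.** -/
theorem result (K : Type) [Field K] [NumberField K] (Λ : Subgroup (AlgebraicClosure K)ˣ)
    (hΛ : Λ.FG) (S : Finset ℕ) :
    (∀ N d : ℕ, ∃ c : ℝ, 0 < c ∧ ∀ (n : ℕ) (Γ : Subgroup (Torus K n)),
      (∀ x : Torus K n, (∀ i, x i ∈ Λ) → x ∈ Γ) →
      ∀ V : Set (Torus K n), IsSubvariety V → IsTransverse Γ V →
      ∀ (D : ℕ) (m : Fin N → Fin n → ℕ) (g : Fin N → AlgebraicClosure K),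
      (∀ j i, m j i ≤ D) → (∀ j, DegreeLE (radicalField Λ S) d (g j)) →
      (∑ j, C (g j) * ∏ i, X i ^ m j i) ≠ 0 →
      (∑ j, C (g j) * ∏ i, X i ^ m j i) ∈ idealOf V →
      ∀ θ : ℝ, EssentialBound V θ → c ≤ D * θ) ∧
    (∀ (n : ℕ) (ω₀ : ℝ), ∃ c : ℝ, 0 < c ∧ ∀ Γ : Subgroup (Torus K n), RadicalGroup Λ S Γ →
      ∀ V : Set (Torus K n), IsSubvariety V → V ≠ Set.univ → IsTransverse Γ V →
      (∃ ω : ℝ, ObstructionValue (fieldOf Γ) V ω ∧ ω ≤ ω₀) →
      ∀ θ : ℝ, EssentialBound V θ → c ≤ θ) :=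
  ⟨fun N d => sparse K Λ hΛ S N d, fun n ω₀ => bogomolov K Λ hΛ S n ω₀⟩

end Pool.Agent.Results.MP_187c26_nt.BogomolovForm
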