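import Mathlib
import Pool.Agent.H11.Selberg.Defs
import Pool.Agent.H11.Selberg.LineFinal

set_option autoImplicit false

namespace Pool.Agent.Results.MP_8e9775_nt.LineBessel

open Pool.Agent.H11.Selberg

/-- For every element of the Selberg class and every finite set `T` of ordinates,
`S_F(x) ≥ (∑ m_t ^ 2) log log x - O(1)`, where `m_t` is the order of vanishing at `1 + i t`,
and `S_F(x) = (∑ m_t ^ 2) log log x + O(1)` holds if and only if `a_F(p)` is close to
`- ∑ m_t p ^ (i t)` in the mean square sense. -/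
theorem result :
    ∀ (a : ℕ → ℂ) (F : ℂ → ℂ), IsSelberg a F → ∀ T : Finset ℝ,
      (∃ C : ℝ, ∀ x : ℝ, 2 ≤ x →
        (∑ t ∈ T, (ord F t : ℝ) ^ 2) * Real.log (Real.log x) - C ≤ S a x) ∧
      ((∃ C : ℝ, ∀ x : ℝ, 2 ≤ x →
        |S a x - (∑ t ∈ T, (ord F t : ℝ) ^ 2) * Real.log (Real.log x)| ≤ C) ↔
        Summable (fun p : Nat.Primes =>
          ‖a p + ∑ t ∈ T, (ord F t : ℂ) * ((p : ℕ) : ℂ) ^ ((t : ℂ) * Complex.I)‖ ^ 2
            / ((p : ℕ) : ℝ))) :=
  fun a F h T => line_bound a F h T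

end Pool.Agent.Results.MP_8e9775_nt.LineBessel
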