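import Mathlib
import Pool.Agent.H11.Selberg.Defs
import Pool.Agent.H11.Selberg.Defs2
import Pool.Agent.H11.Selberg.Equiv

set_option autoImplicit false

namespace Pool.Agent.H11.Keep.MeanSquareForm

open Pool.Agent.H11.Selberg

/-- For every element of the Selberg class and every `κ ≥ 0` the formula
`S_F(x) = κ log log x + O(1)` is equivalent to `∑_{n ≤ x} |a_F(n)|^2 / n ≍ (log x)^κ`, to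
`∑ |a_F(n)|^2 n^(-σ) ≍ (σ - 1)^(-κ)`, and to `(F ⊗ conj F)(σ) ≍ (σ - 1)^(-κ)`. -/
theorem result :
    ∀ (a : ℕ → ℂ) (F : ℂ → ℂ) (b : ℕ → ℂ) (κ : ℝ), IsSelberg a F → EulerCoeff b F → 0 ≤ κ →
    List.TFAE [
      ∃ C : ℝ, ∀ x : ℝ, 2 ≤ x → |S a x - κ * Real.log (Real.log x)| ≤ C,
      ∃ c C : ℝ, 0 < c ∧ ∀ x : ℝ, 2 ≤ x →
        c * (Real.log x) ^ κ ≤ ∑ n ∈ Finset.Icc 1 ⌊x⌋₊, ‖a n‖ ^ 2 / (n : ℝ) ∧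
        ∑ n ∈ Finset.Icc 1 ⌊x⌋₊, ‖a n‖ ^ 2 / (n : ℝ) ≤ C * (Real.log x) ^ κ,
      ∃ c C : ℝ, 0 < c ∧ ∀ σ : ℝ, 1 < σ → σ ≤ 2 →
        c * (σ - 1) ^ (-κ) ≤ ∑' n : ℕ, ‖a n‖ ^ 2 / (n : ℝ) ^ σ ∧
        ∑' n : ℕ, ‖a n‖ ^ 2 / (n : ℝ) ^ σ ≤ C * (σ - 1) ^ (-κ),
      ∃ c C : ℝ, 0 < c ∧ ∀ σ : ℝ, 1 < σ → σ ≤ 2 →
        c * (σ - 1) ^ (-κ) ≤ tensorSquare b σ ∧
        tensorSquare b σ ≤ C * (σ - 1) ^ (-κ)] :=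
  fun a F b κ h hb hκ => equivalence a F b κ h hb hκ

end Pool.Agent.H11.Keep.MeanSquareForm
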